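import Pool.Agent.helper59.FI4.SpecP4
import Pool.Agent.helper26.FI4.BES

/-!
# Project fi4 (MP_baa4d7_al), row BES4: Bessel's inequality
-/

set_option autoImplicit false

namespace Pool.Agent.FI4

open Pool.Agent.helper58.DC Pool.Agent.DI Pool.Agent.GR Pool.Agent.OB Pool.Agent.DR Pool.Agent.FI Pool.Agent.FI3

theorem BES4_cz (G : Type) [Group G] : cz (⊥ : Subgroup G) = ⊤ := by
  rw [eq_top_iff]
  intro x _
  rw [Subgroup.mem_centralizer_iff]
  intro y hy
  have h1 : y = 1 := Subgroup.mem_bot.1 hy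
  rw [h1, one_mul, mul_one]

theorem BES4_nz {G : Type} [Group G] (t : G) : t ∈ nz (⊥ : Subgroup G) := by
  rw [Subgroup.mem_normalizer_iff]
  intro x
  rw [Subgroup.mem_bot, Subgroup.mem_bot]
  constructor
  · intro h
    rw [h, mul_one, mul_inv_cancel]
  · intro h
    have h1 : x = t⁻¹ * (t * x * t⁻¹) * t := by group
    rw [h1, h, mul_one, inv_mul_cancel]

theorem BES4_fs {α β : Type} [AddCommMonoid β] (S : Set α) [Fintype S] (f : α → β) :
    ∑ᶠ x ∈ S, f x = ∑ x : S, f x := by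
  rw [← finsum_set_coe_eq_finsum_mem, finsum_eq_sum_of_fintype]

theorem BES4 (hGRG : GRG_stmt) (hDOR : DOR4_stmt) (hDDT : DDT4_stmt) (hRGF : RGF_stmt) (hTPR : FI.TPR_stmt)
    (hB2 : B2_stmt) : BES4_stmt := by
  intro p M hM hp G _ _ D x θ χ h a
  classical
  have hR := h.rt
  have hcz := BES4_cz G
  obtain ⟨r1, -, -, -, -, -⟩ := hRGF p M hM.pr G D θ hR.th hR.dfa.pgrp hR.com
  obtain ⟨-, h2, -, -, -⟩ := hTPR p M hM G
  have hBl : Blk M χ (⊤ : Subgroup G) = Bl M (⊤ : Subgroup G) θ := by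
    have h3 : SB M (⊤ : Subgroup G) θ χ := (h2 θ χ).1 hR.ind
    ext ψ
    constructor
    · rintro ⟨h4, h5⟩
      exact ⟨h4, ((h2 ψ χ).1 h5).trans h3.symm⟩
    · rintro ⟨h4, h5⟩
      exact ⟨h4, (h2 ψ χ).2 (h5.trans h3)⟩
  rw [hBl]
  have hfin : (Bl M (⊤ : Subgroup G) θ).Finite := (hB2 G ⊤).1.subset fun _ h => h.1
  have := hfin.fintype
  have hRfin : (RG M D θ).Finite := Set.toFinite _
  set C := (cz D).subgroupOf (TT M D θ) with hC
  have : Fintype (TT M D θ ⧸ C) := Fintype.ofFinite _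
  set act : (TT M D θ ⧸ C) → G → G := fun t u => (t.out : G) * u * (t.out : G)⁻¹ with hact
  -- `t u t⁻¹` depends on the coset only
  have hcos : ∀ u ∈ D, ∀ t : TT M D θ, act (t : TT M D θ ⧸ C) u = t * u * (t : G)⁻¹ := by
    intro u hu t
    have h3 : (t : TT M D θ)⁻¹ * ((t : TT M D θ ⧸ C).out) ∈ C := by
      rw [← QuotientGroup.eq, QuotientGroup.out_eq']
    have h4 : ((t : G)⁻¹ * (((t : TT M D θ ⧸ C).out : TT M D θ) : G)) ∈ cz D := by
      have h5 := Subgroup.mem_subgroupOf.1 h3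
      simpa using h5
    rw [Subgroup.mem_centralizer_iff] at h4
    have h6 := h4 u hu
    change (((t : TT M D θ ⧸ C).out : TT M D θ) : G) * u * (((t : TT M D θ ⧸ C).out : TT M D θ) : G)⁻¹ = _
    set o : G := (((t : TT M D θ ⧸ C).out : TT M D θ) : G) with ho
    calc o * u * o⁻¹ = (t : G) * (((t : G)⁻¹ * o) * u) * o⁻¹ := by group
      _ = (t : G) * (u * ((t : G)⁻¹ * o)) * o⁻¹ := by rw [h6]
      _ = t * u * (t : G)⁻¹ := by group
  have key := NUM.bessel (X := Bl M (⊤ : Subgroup G) θ) (D := G) (I := TT M D θ ⧸ C) hRfin.toFinset act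
    (fun t u hu => hRfin.mem_toFinset.2 (r1 u (hRfin.mem_toFinset.1 hu) _ t.out.2))
    (fun u hu t t' htt => by
      have h3 := (hRfin.mem_toFinset.1 hu).2
      have h4 : (t.out : G) * u * (t.out : G)⁻¹ = (t'.out : G) * u * (t'.out : G)⁻¹ := htt
      have h5 : ((t.out⁻¹ * t'.out : TT M D θ) : G) ∈ cz D := by
        refine h3 _ (t.out⁻¹ * t'.out).2 ?_
        push_cast
        calc (t.out : G)⁻¹ * (t'.out : G) * u = (t.out : G)⁻¹ * ((t'.out : G) * u * (t'.out : G)⁻¹) * (t'.out : G) := by group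
          _ = (t.out : G)⁻¹ * ((t.out : G) * u * (t.out : G)⁻¹) * (t'.out : G) := by rw [h4]
          _ = u * ((t.out : G)⁻¹ * (t'.out : G)) := by group
      have h6 : t.out⁻¹ * t'.out ∈ C := Subgroup.mem_subgroupOf.2 h5
      rw [← QuotientGroup.eq, QuotientGroup.out_eq', QuotientGroup.out_eq'] at h6
      exact h6)
    (fun ψ u => dd M (Cz (⊤ : Subgroup G) u) θ ψ u)
    (fun ψ t u hu => by
      have hu' := hRfin.mem_toFinset.1 hu
      have h3 := hDDT p M hM G D x θ χ h ⊥ bot_le (t.out : G) t.out.2 (BES4_nz _) u hu'.1 (ψ : G → ℂ)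
        (by rw [hcz]; exact ψ.2.1)
      rw [hcz] at h3
      have h4 : cjF (t.out : G) (ψ : G → ℂ) = (ψ : G → ℂ) := by
        funext y
        rw [cjF_apply]
        have h5 := ((hB2 G ⊤).2 (ψ : G → ℂ) ψ.2.1).2.1 y (t.out : G)⁻¹ (Subgroup.mem_top _)
        rw [inv_inv] at h5
        exact h5
      rw [h4] at h3
      exact h3)
    (Nat.card D)
    (fun u hu v hv huv => by
      have hu' := hRfin.mem_toFinset.1 hu
      have hv' := hRfin.mem_toFinset.1 hv
      have h3 := (hDOR p M hM G D x θ χ h ⊥ bot_le v hv'.1 u hu'.1 (hGRG p M hM hp G D x θ χ h v hv').2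
        (hGRG p M hM hp G D x θ χ h u hu').2).2.2 (by
          rintro ⟨t, ht, htu⟩
          refine huv ((⟨t, ht.1⟩ : TT M D θ) : TT M D θ ⧸ C) ?_
          rw [hcos u hu'.1]
          exact htu)
      rw [hcz, BES4_fs] at h3
      exact h3)
    (fun u hu => by
      have hu' := hRfin.mem_toFinset.1 hu
      have h3 := (hDOR p M hM G D x θ χ h ⊥ bot_le u hu'.1 u hu'.1 (hGRG p M hM hp G D x θ χ h u hu').2
        (hGRG p M hM hp G D x θ χ h u hu').2).2.1 rfl
      rw [hcz, BES4_fs] at h3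
      exact h3)
    (fun ψ => a ψ)
  have hcard : Fintype.card (TT M D θ ⧸ C) = iI M D θ := by
    unfold iI Subgroup.relIndex Subgroup.index
    rw [Nat.card_eq_fintype_card]
  rw [hcard] at key
  rw [finsum_mem_eq_finite_toFinset_sum _ hRfin, BES4_fs (Bl M (⊤ : Subgroup G) θ) (fun ψ => ‖a ψ‖ ^ 2)]
  have h7 : ∀ u ∈ hRfin.toFinset, ‖∑ᶠ ψ ∈ Bl M (⊤ : Subgroup G) θ, a ψ * dd M (Cz (⊤ : Subgroup G) u) θ ψ u‖ ^ 2 =
      ‖∑ ψ : Bl M (⊤ : Subgroup G) θ, a ψ * dd M (Cz (⊤ : Subgroup G) u) θ ψ u‖ ^ 2 := by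
    intro u _
    rw [BES4_fs]
  rw [Finset.sum_congr rfl h7]
  push_cast at key
  exact key

end Pool.Agent.FI4
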