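import Pool.Agent.helper95.FI4.SpecB

/-!
# Project fi4 (MP_baa4d7_al), block BOUND, row PSG: the signs
-/

set_option autoImplicit false

namespace Pool.Agent.FI4

open Pool.Agent.helper58.DC Pool.Agent.DI Pool.Agent.GR Pool.Agent.OB Pool.Agent.DR Pool.Agent.FI Pool.Agent.FI3

/-- `|I| n(u)²` is the restriction to `R` of an integer combination of characters -/
theorem PSG_nu (hLCG : LCG_stmt) (hLCO : LCO_stmt) (p : ℕ) (M : Ideal (integralClosure ℤ ℂ)) (hM : Setup p M) (D : Type)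
    [CommGroup D] [Fintype D] (X : Type) [Fintype X] (R : Set D) (I : Subgroup (MulAut D)) (β d : X → D → ℂ) (n : D → ℤ)
    (hpg : IsPGroup p D) (hfr : ∀ t ∈ I, ∀ u ∈ R, t u = u → t = 1) (hL : ∀ χ, LGC (β χ))
    (hinv : ∀ χ, ∀ t ∈ I, ∀ u, β χ (t u) = β χ u) (hbn : ∀ χ, ∀ u ∈ R, β χ u = (n u : ℂ) * d χ u)
    (horth : ∀ u ∈ R, ∀ a, (∀ t ∈ I, t u ≠ a) → ∑ χ, β χ a * (starRingEnd ℂ) (β χ u) = 0)
    (hdd : ∀ u ∈ R, ∑ χ, d χ u * (starRingEnd ℂ) (d χ u) = (Nat.card D : ℂ)) :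
    ∃ κ : D → ℂ, LGC κ ∧ ∀ u ∈ R, κ u = (Nat.card I : ℂ) * (n u : ℂ) ^ 2 := by
  classical
  obtain ⟨hconst, -, -, -, -, hmul, hconj, -, hsum⟩ := hLCG D
  have hc : ∀ χ, ∃ m : ℤ, ∑ u, β χ u = (Nat.card D : ℂ) * m := fun χ => by
    obtain ⟨m, hm⟩ := (hLCO p M D (β χ) hM hpg (hL χ)).1 1
    refine ⟨m, ?_⟩
    simpa only [lv_hone, mul_one] using hm
  choose c hc using hc
  have hD : (Nat.card D : ℂ) ≠ 0 := Nat.cast_ne_zero.2 Nat.card_pos.ne'
  have : Fintype I := Fintype.ofFinite _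
  refine ⟨fun u => ∑ χ, (c χ : ℂ) * (starRingEnd ℂ) (β χ u), ?_, fun u hu => ?_⟩
  · exact hsum X (fun χ u => (c χ : ℂ) * (starRingEnd ℂ) (β χ u)) fun χ =>
      hmul _ _ (hconst (c χ)) (hconj _ (hL χ))
  · have h1 : (Nat.card D : ℂ) * ∑ χ, (c χ : ℂ) * (starRingEnd ℂ) (β χ u)
        = ∑ a, ∑ χ, β χ a * (starRingEnd ℂ) (β χ u) := by
      rw [Finset.sum_comm, Finset.mul_sum]
      refine Finset.sum_congr rfl fun χ _ => ?_
      rw [← Finset.sum_mul, hc χ]
      ring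
    have hinj : Function.Injective (fun t : I => (t : MulAut D) u) := by
      intro t t' htt
      have h2 : ((t' : MulAut D)⁻¹ * (t : MulAut D)) u = u := by
        rw [MulAut.mul_apply]
        have h3 : (t : MulAut D) u = (t' : MulAut D) u := htt
        rw [h3, MulAut.inv_apply_self]
      have h4 := hfr _ (I.mul_mem (I.inv_mem t'.2) t.2) u hu h2
      exact Subtype.ext (inv_mul_eq_one.1 h4).symm
    have h2 : ∑ a, ∑ χ, β χ a * (starRingEnd ℂ) (β χ u)
        = ∑ t : I, ∑ χ, β χ ((t : MulAut D) u) * (starRingEnd ℂ) (β χ u) := by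
      rw [← Finset.sum_image (s := Finset.univ) (g := fun t : I => (t : MulAut D) u)
        (f := fun a => ∑ χ, β χ a * (starRingEnd ℂ) (β χ u)) (fun t _ t' _ htt => hinj htt)]
      refine (Finset.sum_subset (Finset.subset_univ _) fun a _ ha => ?_).symm
      refine horth u hu a fun t ht hta => ha ?_
      exact Finset.mem_image.2 ⟨⟨t, ht⟩, Finset.mem_univ _, hta⟩
    have h3 : ∀ t : I, ∑ χ, β χ ((t : MulAut D) u) * (starRingEnd ℂ) (β χ u)
        = (n u : ℂ) ^ 2 * (Nat.card D : ℂ) := fun t => by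
      rw [← hdd u hu, Finset.mul_sum]
      refine Finset.sum_congr rfl fun χ _ => ?_
      rw [hinv χ t t.2 u, hbn χ u hu, map_mul]
      simp only [map_intCast]
      ring
    have h4 : (Nat.card D : ℂ) * ∑ χ, (c χ : ℂ) * (starRingEnd ℂ) (β χ u)
        = (Nat.card D : ℂ) * ((Nat.card I : ℂ) * (n u : ℂ) ^ 2) := by
      rw [h1, h2, Finset.sum_congr rfl fun t _ => h3 t, Finset.sum_const, Finset.card_univ,
        nsmul_eq_mul, Nat.card_eq_fintype_card (α := I)]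
      ring
    exact mul_left_cancel₀ hD h4

theorem PSG (hLCG : LCG_stmt) (hLCO : LCO_stmt) : PSG_stmt := by
  intro p M hM D _ _ X _ R I β d n hpg hcop hfr hL hinv hbn hpn horth hdd hint
  classical
  obtain ⟨κ, hκ, hκ2⟩ := PSG_nu hLCG hLCO p M hM D X R I β d n hpg hfr hL hinv hbn horth hdd
  by_cases hR : ∃ u₀, u₀ ∈ R
  · obtain ⟨u₀, hu₀⟩ := hR
    have hp : Prime (p : ℤ) := Nat.prime_iff_prime_int.1 hM.pr
    have hdvd : ∀ u ∈ R, (p : ℤ) ∣ n u - n u₀ ∨ (p : ℤ) ∣ n u + n u₀ := by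
      intro u hu
      have h1 := (hLCO p M D κ hM hpg hκ).2.2
      have h2 := InM.sub hM (h1 u) (h1 u₀)
      have h3 : κ u - κ 1 - (κ u₀ - κ 1) = (((Nat.card I : ℤ) * ((n u - n u₀) * (n u + n u₀)) : ℤ) : ℂ) := by
        rw [hκ2 u hu, hκ2 u₀ hu₀]
        push_cast
        ring
      rw [h3, InM.intCast hM] at h2
      rcases hp.dvd_or_dvd h2 with h4 | h4
      · exact absurd (Int.natCast_dvd_natCast.1 h4) hcop
      · exact hp.dvd_or_dvd h4
    have hcg : ∀ u ∈ R, (p : ℤ) ∣ (if (p : ℤ) ∣ n u - n u₀ then (1 : ℤ) else -1) * n u - n u₀ := by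
      intro u hu
      split_ifs with h1
      · rw [one_mul]
        exact h1
      · rcases hdvd u hu with h2 | h2
        · exact absurd h2 h1
        · have h3 : -1 * n u - n u₀ = -(n u + n u₀) := by ring
          rw [h3]
          exact (dvd_neg).2 h2
    have hε : ∀ u, (if (p : ℤ) ∣ n u - n u₀ then (1 : ℤ) else -1) = 1 ∨
        (if (p : ℤ) ∣ n u - n u₀ then (1 : ℤ) else -1) = -1 := by
      intro u
      split_ifs
      · exact Or.inl rfl
      · exact Or.inr rfl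
    refine ⟨fun u => if (p : ℤ) ∣ n u - n u₀ then 1 else -1, hε, ?_⟩
    intro χ u hu u' hu'
    change InM M ((((if (p : ℤ) ∣ n u - n u₀ then (1 : ℤ) else -1) : ℤ) : ℂ) * d χ u -
      (((if (p : ℤ) ∣ n u' - n u₀ then (1 : ℤ) else -1) : ℤ) : ℂ) * d χ u')
    have hg := hcg u hu
    have hg' := hcg u' hu'
    have he := hε u
    have he' := hε u'
    set a : ℤ := (if (p : ℤ) ∣ n u - n u₀ then (1 : ℤ) else -1) with ha
    set b : ℤ := (if (p : ℤ) ∣ n u' - n u₀ then (1 : ℤ) else -1) with hb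
    have ha2 : (a : ℂ) * a = 1 := by
      rcases he with h | h <;> rw [h] <;> norm_num
    have hb2 : (b : ℂ) * b = 1 := by
      rcases he' with h | h <;> rw [h] <;> norm_num
    have hai : IntAt M ((a : ℂ) * d χ u) := by
      refine IntAt.of_isIntegral hM (IsIntegral.mul ?_ (hint χ u hu))
      exact isIntegral_algebraMap (R := ℤ) (A := ℂ) (x := a)
    have hbi : IntAt M ((b : ℂ) * d χ u') := by
      refine IntAt.of_isIntegral hM (IsIntegral.mul ?_ (hint χ u' hu'))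
      exact isIntegral_algebraMap (R := ℤ) (A := ℂ) (x := b)
    have h1 := (hLCO p M D (β χ) hM hpg (hL χ)).2.2
    have h2 : InM M (β χ u - β χ u') := by
      have h3 := InM.sub hM (h1 u) (h1 u')
      have h4 : β χ u - β χ 1 - (β χ u' - β χ 1) = β χ u - β χ u' := by ring
      rw [h4] at h3
      exact h3
    have h3 : InM M (((a * n u - n u₀ : ℤ) : ℂ) * ((a : ℂ) * d χ u)) :=
      InM.mul_right hM ((InM.intCast hM _).2 hg) hai
    have h4 : InM M (((b * n u' - n u₀ : ℤ) : ℂ) * ((b : ℂ) * d χ u')) :=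
      InM.mul_right hM ((InM.intCast hM _).2 hg') hbi
    have h5 : InM M ((n u₀ : ℂ) * ((a : ℂ) * d χ u - (b : ℂ) * d χ u')) := by
      have h6 : (n u₀ : ℂ) * ((a : ℂ) * d χ u - (b : ℂ) * d χ u') = (β χ u - β χ u') -
          ((a * n u - n u₀ : ℤ) : ℂ) * ((a : ℂ) * d χ u) + ((b * n u' - n u₀ : ℤ) : ℂ) * ((b : ℂ) * d χ u') := by
        rw [hbn χ u hu, hbn χ u' hu']
        push_cast
        have e1 : ((a : ℂ) * (n u : ℂ) - n u₀) * ((a : ℂ) * d χ u) = (a : ℂ) * a * (n u * d χ u) - n u₀ * (a * d χ u) := by ring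
        have e2 : ((b : ℂ) * (n u' : ℂ) - n u₀) * ((b : ℂ) * d χ u') = (b : ℂ) * b * (n u' * d χ u') - n u₀ * (b * d χ u') := by
          ring
        rw [e1, e2, ha2, hb2]
        ring
      rw [h6]
      exact InM.add hM (InM.sub hM h2 h3) h4
    have hd0 : IntAt M (n u₀ : ℂ) := IntAt.of_isIntegral hM (isIntegral_algebraMap (R := ℤ) (A := ℂ) (x := n u₀))
    rcases InM.or hM hd0 (IntAt.sub hM hai hbi) h5 with h7 | h7
    · exact absurd ((InM.intCast hM _).1 h7) (hpn u₀ hu₀)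
    · exact h7
  · exact ⟨fun _ => 1, fun _ => Or.inl rfl, fun χ u hu => absurd ⟨u, hu⟩ hR⟩

end Pool.Agent.FI4
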