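import Pool.Agent.helper59.FI4.SpecI

/-!
# Project fi4 (MP_baa4d7_al), block IND, row LBI: invariance under conjugation
-/

set_option autoImplicit false

namespace Pool.Agent.FI4I

open Pool.Agent.helper58.DC Pool.Agent.DI Pool.Agent.GR Pool.Agent.OB Pool.Agent.DR Pool.Agent.FI Pool.Agent.FI3 Pool.Agent.FI4

theorem LBI_inv {G : Type} [Group G] (g : G) (ψ : G → ℂ) : cjF g (cjF g⁻¹ ψ) = ψ := by
  funext x
  rw [cjF_apply, cjF_apply]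
  refine congrArg ψ ?_
  group

theorem LBI_inj {G : Type} [Group G] (g : G) : Function.Injective (cjF g : (G → ℂ) → (G → ℂ)) := by
  intro ψ ψ' h
  have h1 : ∀ ψ : G → ℂ, cjF g⁻¹ (cjF g ψ) = ψ := by
    intro ψ
    have h2 := LBI_inv g⁻¹ ψ
    rw [inv_inv] at h2
    exact h2
  rw [← h1 ψ, ← h1 ψ', h]

theorem LBI (hFEQ : FEQ_stmt) (hCJG : CJG_stmt) (hQCJ : QCJ_stmt) : LBI_stmt := by
  intro p M hM G _ _
  -- a general form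
  have key : ∀ (g : G) (H : Subgroup G) (P : (G → ℂ) → Prop), (∀ ψ, P (cjF g ψ) ↔ P ψ) →
      Set.BijOn (cjF g : (G → ℂ) → (G → ℂ)) {ζ | ζ ∈ IrrOn H ∧ P ζ} {ζ | ζ ∈ IrrOn (cjS g H) ∧ P ζ} := by
    intro g H P hP
    have hI : ∀ ψ : G → ℂ, ψ ∈ IrrOn H ↔ cjF g ψ ∈ IrrOn (cjS g H) := fun ψ =>
      (hFEQ G M g g H H H ψ ψ ψ).2.2.2.1
    refine ⟨fun ζ hζ => ⟨(hI ζ).1 hζ.1, (hP ζ).2 hζ.2⟩, (LBI_inj g).injOn, fun ζ hζ => ?_⟩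
    refine ⟨cjF g⁻¹ ζ, ⟨(hI _).2 ?_, (hP _).1 ?_⟩, LBI_inv g ζ⟩
    · rw [LBI_inv]
      exact hζ.1
    · rw [LBI_inv]
      exact hζ.2
  have hsum : ∀ (g : G) (H : Subgroup G) (P : (G → ℂ) → Prop), (∀ ψ, P (cjF g ψ) ↔ P ψ) →
      ∑ᶠ ζ ∈ {ζ | ζ ∈ IrrOn (cjS g H) ∧ P ζ}, EE p (cjS g H) ζ ζ = ∑ᶠ ζ ∈ {ζ | ζ ∈ IrrOn H ∧ P ζ}, EE p H ζ ζ := by
    intro g H P hP
    refine (finsum_mem_eq_of_bijOn (cjF g) (key g H P hP) fun ζ _ => ?_).symm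
    exact ((hQCJ G g H).1 p ζ ζ).symm
  refine ⟨fun N φ n hn H => ?_, fun χ hχ g H => ?_⟩
  · have hSB : ∀ ψ : G → ℂ, SB M N (cjF n ψ) ψ := fun ψ => ((hCJG G M p n N).2.2.2.2.2.1 hn ψ).1
    exact hsum n H (fun ζ => SB M N ζ φ) fun ψ => ⟨fun h => (hSB ψ).symm.trans h, fun h => (hSB ψ).trans h⟩
  · have hInd : ∀ ψ : G → ℂ, Induces M (cjF g ψ) χ ↔ Induces M ψ χ := fun ψ =>
      ((hFEQ G M g g H H H ψ ψ χ).2.2.2.2.2.1 hχ).2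
    refine ⟨hsum g H (fun ζ => Induces M ζ χ) hInd, ?_, (hFEQ G M g g H H H χ χ χ).2.1.2.2.2.2.2⟩
    have h1 := key g H (fun ζ => Induces M ζ χ) hInd
    have h2 : Blk M χ (cjS g H) = (cjF g : (G → ℂ) → (G → ℂ)) '' Blk M χ H := h1.image_eq.symm
    rw [h2]
    exact Set.ncard_image_of_injective _ (LBI_inj g)

end Pool.Agent.FI4I
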